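import Pool.Agent.W401.CS.Perc

/-!
Realisation of invariant random configurations by a free measure preserving action (project CS).
-/

set_option autoImplicit false

namespace Pool.Agent.W401.CS

open MeasureTheory ProbabilityTheory Filter
open Pool.Agent.W336.CS

variable {G : Type} [Group G]

theorem shift_meas (h : G) : Measurable (shift h : Cfg G → Cfg G) := by
  unfold shift
  exact measurable_pi_lambda _ (fun e => measurable_pi_apply _)

theorem shift_one (ω : Cfg G) : shift 1 ω = ω := by
  funext e
  simp [shift]

theorem shift_mul (h k : G) (ω : Cfg G) : shift (h * k) ω = shift h (shift k ω) := by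
  funext e
  simp [shift, mul_assoc]

/-- The space. -/
abbrev XX (G : Type) : Type := (ℕ → Cfg G) × (ℕ → Cfg G)

/-- The action. -/
@[reducible] def act : MulAction G (XX G) where
  smul h x := (fun i => shift h (x.1 i), fun i => shift h (x.2 i))
  one_smul x := by
    show ((fun i => shift 1 (x.1 i), fun i => shift 1 (x.2 i)) : XX G) = x
    simp only [shift_one]
  mul_smul h k x := by
    show ((fun i => shift (h * k) (x.1 i), fun i => shift (h * k) (x.2 i)) : XX G) =
      (fun i => shift h (shift k (x.1 i)), fun i => shift h (shift k (x.2 i)))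
    simp only [shift_mul]

/-- one half -/
noncomputable def hf : unitInterval := ⟨1 / 2, by norm_num, by norm_num⟩

/-- fair coins -/
noncomputable def coins (G : Type) : Measure (Cfg G) := perc (fun _ => hf)

instance : IsProbabilityMeasure (coins G) := by unfold coins; infer_instance

/-- the measure -/
noncomputable def MM (ν : ℕ → Measure (Cfg G)) [∀ i, IsProbabilityMeasure (ν i)] :
    Measure (XX G) :=
  (Measure.infinitePi ν).prod (Measure.infinitePi (fun _ : ℕ => coins G))

instance (ν : ℕ → Measure (Cfg G)) [∀ i, IsProbabilityMeasure (ν i)] :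
    IsProbabilityMeasure (MM ν) := by unfold MM; infer_instance

theorem mp_pi (ν : ℕ → Measure (Cfg G)) [∀ i, IsProbabilityMeasure (ν i)]
    (hν : ∀ i, Inv (ν i)) (h : G) :
    MeasurePreserving (fun (x : ℕ → Cfg G) i => shift h (x i))
      (Measure.infinitePi ν) (Measure.infinitePi ν) := by
  refine ⟨?_, ?_⟩
  · exact measurable_pi_lambda _ (fun i => (shift_meas h).comp (measurable_pi_apply i))
  · rw [Measure.infinitePi_map_pi (f := fun _ => shift h) _ (fun _ => shift_meas h)]
    congr 1
    funext i
    exact hν i h

omit [Group G] in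
theorem pair_half [Countable G] (a b : G × G) (hab : a ≠ b) :
    coins G {ω | ω a = ω b} ≤ ENNReal.ofReal (1 / 2) := by
  classical
  have h1 : ({ω | ω a = ω b} : Set (Cfg G)) ⊆
      Set.pi (↑({a, b} : Finset (G × G))) (fun _ => {true}) ∪
      Set.pi (↑({a, b} : Finset (G × G))) (fun _ => {false}) := by
    intro ω hω
    have hω' : ω a = ω b := hω
    cases hb : ω b with
    | true =>
      left
      intro e he
      simp only [Finset.coe_insert, Finset.coe_singleton, Set.mem_insert_iff,
        Set.mem_singleton_iff] at he
      rcases he with rfl | rfl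
      · rw [hω', hb]; rfl
      · rw [hb]; rfl
    | false =>
      right
      intro e he
      simp only [Finset.coe_insert, Finset.coe_singleton, Set.mem_insert_iff,
        Set.mem_singleton_iff] at he
      rcases he with rfl | rfl
      · rw [hω', hb]; rfl
      · rw [hb]; rfl
  refine (measure_mono h1).trans ((measure_union_le _ _).trans ?_)
  unfold coins perc
  rw [Measure.infinitePi_pi _ (fun _ _ => MeasurableSet.of_discrete),
    Measure.infinitePi_pi _ (fun _ _ => MeasurableSet.of_discrete),
    Finset.prod_pair hab, Finset.prod_pair hab, bern_true, bern_false]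
  have : (hf : ℝ) = 1 / 2 := rfl
  rw [this, ← ENNReal.ofReal_mul (by norm_num), ← ENNReal.ofReal_mul (by norm_num),
    ← ENNReal.ofReal_add (by norm_num) (by norm_num)]
  apply ENNReal.ofReal_le_ofReal
  norm_num

theorem null_fix [Countable G] (h : G) (hh : h ≠ 1) :
    ∀ᵐ η ∂(Measure.infinitePi (fun _ : ℕ => coins G)),
      ¬ ((fun i => shift h (η i)) = η) := by
  rw [ae_iff]
  simp only [not_not]
  have hsub : ∀ n : ℕ, {η : ℕ → Cfg G | (fun i => shift h (η i)) = η} ⊆
      Set.pi (↑(Finset.range n)) (fun _ => {ω : Cfg G | ω (h, 1) = ω (1, 1)}) := by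
    intro n η hη i _
    have h1 : shift h (η i) = η i := congrFun hη i
    have h2 := congrFun h1 (1, 1)
    simp only [shift, one_mul] at h2
    exact h2
  have hm : MeasurableSet {ω : Cfg G | ω (h, 1) = ω (1, 1)} :=
    measurableSet_eq_fun (measurable_pi_apply _) (measurable_pi_apply _)
  have hle : ∀ n : ℕ, (Measure.infinitePi (fun _ : ℕ => coins G))
      {η : ℕ → Cfg G | (fun i => shift h (η i)) = η} ≤ ENNReal.ofReal ((1 / 2) ^ n) := by
    intro n
    refine (measure_mono (hsub n)).trans ?_
    rw [Measure.infinitePi_pi _ (fun _ _ => hm), Finset.prod_const, Finset.card_range,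
      ENNReal.ofReal_pow (by norm_num)]
    apply pow_le_pow_left₀ (by positivity)
    exact pair_half _ _ (by intro he; exact hh (congrArg Prod.fst he))
  have hlim : Tendsto (fun n : ℕ => ENNReal.ofReal ((1 / 2) ^ n)) atTop (nhds 0) := by
    rw [← ENNReal.ofReal_zero]
    exact ENNReal.tendsto_ofReal
      (tendsto_pow_atTop_nhds_zero_of_lt_one (by norm_num) (by norm_num))
  exact le_antisymm (ge_of_tendsto' hlim hle) (by simp)

theorem rtg_symm {X : Type} {r : X → X → Prop} (hr : ∀ y z, r y z → r z y) {a b : X}
    (h : Relation.ReflTransGen r a b) : Relation.ReflTransGen r b a := by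
  induction h with
  | refl => exact Relation.ReflTransGen.refl
  | tail _ hs ih => exact Relation.ReflTransGen.head (hr _ _ hs) ih

theorem real : S_real := by
  intro G _ _ ν _ hν hconn
  let _ : MulAction G (XX G) := act
  have hact : ∀ (h : G) (x : XX G), h • x =
      (fun i => shift h (x.1 i), fun i => shift h (x.2 i)) := fun h x => rfl
  have hcoin : ∀ i : ℕ, Inv ((fun _ : ℕ => coins G) i) := fun _ h => percInv G (fun _ => hf) h
  obtain ⟨φ⟩ : Nonempty (ℕ ≃ ℕ × G) := nonempty_equiv_of_countable
  refine ⟨XX G, inferInstance, inferInstance, MM ν, inferInstance, act, ?_, ?_, ?_⟩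
  · intro g
    have := (mp_pi ν hν g).prod (mp_pi (fun _ : ℕ => coins G) hcoin g)
    exact this
  · rw [ae_all_iff]
    intro g
    by_cases hg : g = 1
    · exact ae_of_all _ (fun _ _ => hg)
    · have h1 : ∀ᵐ x ∂(MM ν), ¬ ((fun i => shift g (x.2 i)) = x.2) :=
        Measure.quasiMeasurePreserving_snd.ae (null_fix g hg)
      filter_upwards [h1] with x hx hgx
      exfalso
      apply hx
      rw [hact] at hgx
      exact congrArg Prod.snd hgx
  · refine ⟨fun k => {x | x.1 (φ k).1 (1, (φ k).2) = true}, fun k => (φ k).2, ?_, ?_, ?_⟩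
    · intro k
      exact measurableSet_eq_fun
        ((measurable_pi_apply _).comp ((measurable_pi_apply _).comp measurable_fst))
        measurable_const
    · have h1 : ∀ᵐ x ∂(MM ν), ∀ g : G, Relation.EqvGen
          (fun a b : G => ∃ (i : ℕ) (s : G), x.1 i (a, s) = true ∧ b = s * a) 1 g :=
        Measure.quasiMeasurePreserving_fst.ae hconn
      filter_upwards [h1] with x hx g
      have key : ∀ a b : G, Relation.EqvGen
          (fun a b : G => ∃ (i : ℕ) (s : G), x.1 i (a, s) = true ∧ b = s * a) a b →
          Relation.ReflTransGen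
            (fun y z : XX G => ∃ k, (y ∈ {x : XX G | x.1 (φ k).1 (1, (φ k).2) = true} ∧
              z = (φ k).2 • y) ∨ (z ∈ {x : XX G | x.1 (φ k).1 (1, (φ k).2) = true} ∧
              y = (φ k).2 • z)) (a • x) (b • x) := by
        intro a b hab
        induction hab with
        | rel a b h =>
          obtain ⟨i, s, h1, rfl⟩ := h
          refine Relation.ReflTransGen.single ⟨φ.symm (i, s), Or.inl ⟨?_, ?_⟩⟩
          · show (a • x).1 (φ (φ.symm (i, s))).1 (1, (φ (φ.symm (i, s))).2) = true
            rw [Equiv.apply_symm_apply, hact]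
            show x.1 i (1 * a, s) = true
            rw [one_mul]; exact h1
          · rw [Equiv.apply_symm_apply, mul_smul]
        | refl a => exact Relation.ReflTransGen.refl
        | symm a b _ ih =>
          refine rtg_symm ?_ ih
          rintro y z ⟨k, h | h⟩
          · exact ⟨k, Or.inr h⟩
          · exact ⟨k, Or.inl h⟩
        | trans a b c _ _ ih1 ih2 => exact ih1.trans ih2
      have := key 1 g (hx g)
      rwa [one_smul] at this
    · have hA : ∀ k, MM ν {x | x.1 (φ k).1 (1, (φ k).2) = true} =
          ν (φ k).1 {ω | ω (1, (φ k).2) = true} := by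
        intro k
        have hm1 : MeasurableSet {ω : Cfg G | ω (1, (φ k).2) = true} :=
          measurableSet_eq_fun (measurable_pi_apply _) measurable_const
        have hm2 : MeasurableSet {y : ℕ → Cfg G | y (φ k).1 (1, (φ k).2) = true} :=
          measurableSet_eq_fun ((measurable_pi_apply _).comp (measurable_pi_apply _))
            measurable_const
        have h1 : MM ν {x | x.1 (φ k).1 (1, (φ k).2) = true} =
            (Measure.infinitePi ν) {y : ℕ → Cfg G | y (φ k).1 (1, (φ k).2) = true} := by
          have h2 : {x : XX G | x.1 (φ k).1 (1, (φ k).2) = true} =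
              {y : ℕ → Cfg G | y (φ k).1 (1, (φ k).2) = true} ×ˢ Set.univ := by
            ext x; simp
          rw [h2]
          unfold MM
          rw [Measure.prod_prod, measure_univ, mul_one]
        rw [h1]
        have h3 := Measure.infinitePi_map_eval ν (φ k).1
        have h4 := Measure.map_apply (μ := Measure.infinitePi ν)
          (measurable_pi_apply (X := fun _ : ℕ => Cfg G) (φ k).1) hm1
        rw [← h3]
        exact h4.symm
      simp_rw [hA]
      rw [Equiv.tsum_eq φ (fun q : ℕ × G => ν q.1 {ω | ω (1, q.2) = true})]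
      exact ENNReal.tsum_prod (f := fun (i : ℕ) (s : G) => ν i {ω | ω (1, s) = true})

end Pool.Agent.W401.CS
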