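import Pool.Agent.W336.CS.Stmts

/-!
Bernoulli percolation: invariance, resampling, second Borel-Cantelli (project CS).
-/

set_option autoImplicit false

namespace Pool.Agent.W401.CS

open MeasureTheory ProbabilityTheory Filter
open Pool.Agent.W336.CS

theorem percInv : S_percInv := by
  intro G _ _ p h
  classical
  unfold perc
  refine Measure.eq_infinitePi _ ?_
  intro s t ht
  have hsm : Measurable (shift h : Cfg G → Cfg G) := by
    unfold shift
    exact measurable_pi_lambda _ (fun e => measurable_pi_apply _)
  rw [Measure.map_apply hsm (MeasurableSet.pi s.countable_toSet (fun i _ => ht i))]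
  have hset : (shift h : Cfg G → Cfg G) ⁻¹' (Set.pi (↑s) t) =
      Set.pi (↑(s.image (fun e : G × G => (e.1 * h, e.2))))
        (fun e : G × G => t (e.1 * h⁻¹, e.2)) := by
    ext ω
    simp only [Set.mem_preimage, Set.mem_pi, Finset.mem_coe, Finset.mem_image]
    constructor
    · rintro hω _ ⟨e, he, rfl⟩
      have h1 : ((e.1 * h * h⁻¹, e.2) : G × G) = e := by rw [mul_inv_cancel_right]
      show ω (e.1 * h, e.2) ∈ t (e.1 * h * h⁻¹, e.2)
      rw [h1]
      exact hω e he
    · intro hω e he
      have h1 : ((e.1 * h * h⁻¹, e.2) : G × G) = e := by rw [mul_inv_cancel_right]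
      have h2 : ω (e.1 * h, e.2) ∈ t (e.1 * h * h⁻¹, e.2) := hω (e.1 * h, e.2) ⟨e, he, rfl⟩
      rw [h1] at h2
      exact h2
  rw [hset, Measure.infinitePi_pi _ (fun i _ => ht _)]
  rw [Finset.prod_image]
  · apply Finset.prod_congr rfl
    intro e _
    have h1 : ((e.1 * h * h⁻¹, e.2) : G × G) = e := by rw [mul_inv_cancel_right]
    show (bern (p e.2)) (t (e.1 * h * h⁻¹, e.2)) = (bern (p e.2)) (t e)
    rw [h1]
  · intro a _ b _ hab
    simp only [Prod.mk.injEq, mul_left_inj] at hab
    exact Prod.ext hab.1 hab.2

theorem resample : S_resample := by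
  intro G _ _ p e
  unfold perc
  refine Measure.eq_infinitePi _ ?_
  intro s t ht
  have hm : Measurable (fun q : Cfg G × Bool => Function.update q.1 e q.2) := by
    apply measurable_pi_lambda
    intro e'
    by_cases h : e' = e
    · subst h
      simp only [Function.update_self]
      exact measurable_snd
    · simp only [Function.update_of_ne h]
      exact (measurable_pi_apply e').comp measurable_fst
  rw [Measure.map_apply hm (MeasurableSet.pi s.countable_toSet (fun i _ => ht i))]
  by_cases he : e ∈ s
  · have hset : (fun q : Cfg G × Bool => Function.update q.1 e q.2) ⁻¹' (Set.pi (↑s) t) =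
        (Set.pi (↑(s.erase e)) t) ×ˢ (t e) := by
      ext ⟨ω, b⟩
      simp only [Set.mem_preimage, Set.mem_pi, Finset.mem_coe, Set.mem_prod, Finset.mem_erase]
      constructor
      · intro h
        refine ⟨fun e' he' => ?_, ?_⟩
        · have := h e' he'.2
          rwa [Function.update_of_ne he'.1] at this
        · have := h e he
          rwa [Function.update_self] at this
      · rintro ⟨h1, h2⟩ e' he'
        by_cases hee : e' = e
        · subst hee; rwa [Function.update_self]
        · rw [Function.update_of_ne hee]; exact h1 e' ⟨hee, he'⟩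
    rw [hset, Measure.prod_prod, Measure.infinitePi_pi _ (fun i _ => ht _), mul_comm,
      Finset.mul_prod_erase s (fun i => bern (p i.2) (t i)) he]
  · have hset : (fun q : Cfg G × Bool => Function.update q.1 e q.2) ⁻¹' (Set.pi (↑s) t) =
        (Set.pi (↑s) t) ×ˢ Set.univ := by
      ext ⟨ω, b⟩
      simp only [Set.mem_preimage, Set.mem_pi, Finset.mem_coe, Set.mem_prod, Set.mem_univ,
        and_true]
      constructor
      · intro h e' he'
        have := h e' he'
        rwa [Function.update_of_ne (fun h => he (by rw [← h]; exact he'))] at this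
      · intro h e' he'
        rw [Function.update_of_ne (fun h => he (by rw [← h]; exact he'))]
        exact h e' he'
    rw [hset, Measure.prod_prod, Measure.infinitePi_pi _ (fun i _ => ht _), measure_univ, mul_one]

theorem bern_true (p : unitInterval) : bern p {true} = ENNReal.ofReal p := by
  simp [bern]

theorem bern_false (p : unitInterval) : bern p {false} = ENNReal.ofReal (1 - p) := by
  simp [bern]

theorem open_ae : S_open := by
  intro G _ p g hg N Z hZd hZN hZg
  classical
  set E : ℕ → Set (Cfg G) := fun i => Set.pi (↑(Z i)) (fun _ => {true}) with hE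
  have hEm : ∀ i, MeasurableSet (E i) := fun i =>
    MeasurableSet.pi (Z i).countable_toSet (fun _ _ => MeasurableSet.of_discrete)
  have hEμ : ∀ i, (perc p) (E i) = ∏ e ∈ Z i, bern (p e.2) {true} := by
    intro i
    unfold perc
    exact Measure.infinitePi_pi _ (fun _ _ => MeasurableSet.of_discrete)
  have hind : iIndepSet E (perc p) := by
    rw [iIndepSet_iff_meas_biInter hEm]
    intro s
    have h1 : (⋂ i ∈ s, E i) = Set.pi (↑(s.biUnion Z)) (fun _ => {true}) := by
      ext ω
      simp only [hE, Set.mem_iInter, Set.mem_pi, Finset.mem_coe, Finset.mem_biUnion]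
      constructor
      · rintro h e ⟨i, hi, he⟩
        exact h i hi e he
      · intro h i hi e he
        exact h e ⟨i, hi, he⟩
    rw [h1]
    conv_lhs => unfold perc
    rw [Measure.infinitePi_pi _ (fun _ _ => MeasurableSet.of_discrete),
      Finset.prod_biUnion (fun i _ j _ hij => hZd i j hij)]
    exact Finset.prod_congr rfl (fun i _ => (hEμ i).symm)
  have hc : ∀ i, ENNReal.ofReal (p g) ^ N ≤ (perc p) (E i) := by
    intro i
    rw [hEμ, Finset.prod_congr rfl (g := fun _ => ENNReal.ofReal (p g))
      (fun e he => by rw [bern_true, hZg i e he]), Finset.prod_const]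
    have h1 : ENNReal.ofReal (p g) ≤ 1 := by
      rw [← ENNReal.ofReal_one]; exact ENNReal.ofReal_le_ofReal (p g).2.2
    exact pow_le_pow_right_of_le_one' h1 (hZN i)
  have hsum : (∑' i, (perc p) (E i)) = ⊤ := by
    rw [eq_top_iff]
    calc (⊤ : ENNReal) = ∑' _ : ℕ, ENNReal.ofReal (p g) ^ N := by
          rw [ENNReal.tsum_const_eq_top_of_ne_zero]
          exact pow_ne_zero _ (by simpa using hg)
      _ ≤ _ := ENNReal.tsum_le_tsum hc
  have hlim := measure_limsup_eq_one hEm hind hsum
  have hae : ∀ᵐ ω ∂(perc p), ω ∈ limsup E atTop := by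
    rw [← mem_ae_iff_prob_eq_one (MeasurableSet.measurableSet_limsup hEm)] at hlim
    exact hlim
  filter_upwards [hae] with ω hω
  rw [mem_limsup_iff_frequently_mem] at hω
  obtain ⟨i, hi⟩ := hω.exists
  exact ⟨i, fun e he => hi e he⟩

end Pool.Agent.W401.CS
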